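import Pool.Agent.Y462.PA.Stm

/-!
# Properties of the chain of groups `Mx` (job PA-MX)
-/

set_option autoImplicit false

open Classical

namespace Pool.Agent.Y681.PA

open Pool.Agent.Y462.SS hiding Bd
open Pool.Agent.Y462.PA

variable {X : Type}

/-! ## sections along rays -/

theorem inv_app (e : Equiv.Perm X) (y : X) : e⁻¹ (e y) = y := e.symm_apply_apply y

theorem app_inv (e : Equiv.Perm X) (y : X) : e (e⁻¹ y) = y := e.apply_symm_apply y

theorem al_add (ρ : ℕ → X) (h : T X) (k n : ℕ) :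
    al ρ h (n + k) = al (fun m => ρ (m + k)) (al ρ h k) n := by
  induction n with
  | zero => rw [Nat.zero_add]; rfl
  | succ n ih =>
    have e : n + 1 + k = (n + k) + 1 := by omega
    rw [e]
    show sec (al ρ h (n + k)) (ρ (n + k)) =
      sec (al (fun m => ρ (m + k)) (al ρ h k) n) (ρ (n + k))
    rw [ih]

theorem al_oneR (ρ : ℕ → X) (n : ℕ) : al ρ (1 : T X) n = 1 := by
  induction n with
  | zero => rfl
  | succ n ih =>
    show sec (al ρ (1 : T X) n) (ρ n) = 1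
    rw [ih, sec_one]

/-- the image of a ray -/
def img (ρ : ℕ → X) (h : T X) : ℕ → X := fun m => root (al ρ h m) (ρ m)

theorem al_mulR (ρ : ℕ → X) (a b : T X) (n : ℕ) :
    al ρ (a * b) n = al (img ρ b) a n * al ρ b n := by
  induction n with
  | zero => rfl
  | succ n ih =>
    show sec (al ρ (a * b) n) (ρ n) =
      sec (al (img ρ b) a n) (root (al ρ b n) (ρ n)) * sec (al ρ b n) (ρ n)
    rw [ih, sec_mul]

theorem al_invR (ρ : ℕ → X) (h : T X) (n : ℕ) : al (img ρ h) h⁻¹ n = (al ρ h n)⁻¹ := by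
  induction n with
  | zero => rfl
  | succ n ih =>
    show sec (al (img ρ h) h⁻¹ n) (root (al ρ h n) (ρ n)) = (sec (al ρ h n) (ρ n))⁻¹
    rw [ih, sec_inv, inv_app]

theorem al_per {P : ℕ} {ξ : ℕ → X} (hξ : ∀ n, ξ (n + P) = ξ n) {h : T X} (hh : al ξ h P = h)
    (n : ℕ) : al ξ h (n + P) = al ξ h n := by
  rw [al_add]
  have h1 : (fun m => ξ (m + P)) = ξ := funext hξ
  rw [h1, hh]

theorem al_congr {ρ ξ : ℕ → X} (h : T X) (t : ℕ) (hρ : ∀ n, n < t → ρ n = ξ n) :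
    al ρ h t = al ξ h t := by
  induction t with
  | zero => rfl
  | succ t ih =>
    show sec (al ρ h t) (ρ t) = sec (al ξ h t) (ξ t)
    rw [ih fun n hn => hρ n (by omega), hρ t (by omega)]

/-! ## eventually periodic rays -/

/-- eventually `P`-periodic rays -/
def EP (P : ℕ) (ρ : ℕ → X) : Prop := ∃ N, ∀ n, N ≤ n → ρ (n + P) = ρ n

/-- the sections of `h` along `ρ` are eventually periodic, with sections off the ray in `H` -/
def RR (P : ℕ) (H : Subgroup (T X)) (ρ : ℕ → X) (h : T X) : Prop :=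
  ∃ N, ∀ m, N ≤ m → al ρ h (m + P) = al ρ h m ∧ ∀ x, x ≠ ρ m → sec (al ρ h m) x ∈ H

variable {P : ℕ}

theorem EP_img {H : Subgroup (T X)} {ρ : ℕ → X} {h : T X} (hρ : EP P ρ) (hR : RR P H ρ h) :
    EP P (img ρ h) := by
  obtain ⟨N1, h1⟩ := hρ
  obtain ⟨N2, h2⟩ := hR
  refine ⟨max N1 N2, fun n hn => ?_⟩
  have a1 := h1 n (le_trans (le_max_left _ _) hn)
  have a2 := (h2 n (le_trans (le_max_right _ _) hn)).1
  show root (al ρ h (n + P)) (ρ (n + P)) = root (al ρ h n) (ρ n)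
  rw [a1, a2]

theorem EP_shift {ρ : ℕ → X} (hρ : EP P ρ) (k : ℕ) : EP P (fun m => ρ (m + k)) := by
  obtain ⟨N, h1⟩ := hρ
  refine ⟨N, fun n hn => ?_⟩
  show ρ (n + P + k) = ρ (n + k)
  have e : n + P + k = n + k + P := by omega
  rw [e]
  exact h1 _ (by omega)

theorem RR_one (H : Subgroup (T X)) (ρ : ℕ → X) : RR P H ρ 1 := by
  refine ⟨0, fun m _ => ⟨?_, fun x _ => ?_⟩⟩
  · rw [al_oneR, al_oneR]
  · rw [al_oneR, sec_one]
    exact one_mem _

theorem RR_mul {H : Subgroup (T X)} {ρ : ℕ → X} {a b : T X} (hb : RR P H ρ b)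
    (ha : RR P H (img ρ b) a) : RR P H ρ (a * b) := by
  obtain ⟨N1, h1⟩ := hb
  obtain ⟨N2, h2⟩ := ha
  refine ⟨max N1 N2, fun m hm => ?_⟩
  obtain ⟨b1, b2⟩ := h1 m (le_trans (le_max_left _ _) hm)
  obtain ⟨a1, a2⟩ := h2 m (le_trans (le_max_right _ _) hm)
  refine ⟨?_, fun x hx => ?_⟩
  · rw [al_mulR, al_mulR, a1, b1]
  · rw [al_mulR, sec_mul]
    refine mul_mem (a2 _ ?_) (b2 x hx)
    intro h
    exact hx ((root (al ρ b m)).injective h)

theorem RR_mono {H K : Subgroup (T X)} (hHK : H ≤ K) {ρ : ℕ → X} {h : T X} (hR : RR P H ρ h) :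
    RR P K ρ h := by
  obtain ⟨N, h1⟩ := hR
  exact ⟨N, fun m hm => ⟨(h1 m hm).1, fun x hx => hHK ((h1 m hm).2 x hx)⟩⟩

theorem RR_shift {H : Subgroup (T X)} {ρ : ℕ → X} {h : T X} (k : ℕ)
    (hR : RR P H (fun m => ρ (m + k)) (al ρ h k)) : RR P H ρ h := by
  obtain ⟨N, hN⟩ := hR
  refine ⟨N + k, fun m hm => ?_⟩
  obtain ⟨n, rfl⟩ : ∃ n, m = n + k := ⟨m - k, by omega⟩
  have h1 := hN n (by omega)
  rw [← al_add, ← al_add] at h1
  refine ⟨?_, h1.2⟩
  have e : n + k + P = n + P + k := by omega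
  rw [e]
  exact h1.1

/-- the automorphisms which, together with their inverses, have eventually periodic sections
along all eventually periodic rays -/
def QQ (P : ℕ) (H : Subgroup (T X)) : Subgroup (T X) where
  carrier := {h | (∀ ρ, EP P ρ → RR P H ρ h) ∧ ∀ ρ, EP P ρ → RR P H ρ h⁻¹}
  one_mem' := ⟨fun ρ _ => RR_one H ρ, fun ρ _ => by rw [inv_one]; exact RR_one H ρ⟩
  mul_mem' := by
    rintro a b ⟨a1, a2⟩ ⟨b1, b2⟩
    refine ⟨fun ρ hρ => RR_mul (b1 ρ hρ) (a1 _ (EP_img hρ (b1 ρ hρ))), fun ρ hρ => ?_⟩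
    rw [mul_inv_rev]
    exact RR_mul (a2 ρ hρ) (b2 _ (EP_img hρ (a2 ρ hρ)))
  inv_mem' := by
    rintro a ⟨a1, a2⟩
    refine ⟨a2, fun ρ hρ => ?_⟩
    rw [inv_inv]
    exact a1 ρ hρ

theorem le_QQ {K H : Subgroup (T X)} (h : ∀ g ∈ K, ∀ ρ, EP P ρ → RR P H ρ g) : K ≤ QQ P H :=
  fun g hg => ⟨h g hg, h _ (inv_mem hg)⟩

/-- automorphisms directed along a periodic ray -/
theorem RR_dir {H : Subgroup (T X)} {ξ ρ : ℕ → X} {h : T X} (h1 : ∀ n, ξ (n + P) = ξ n)
    (h2 : al ξ h P = h) (h3 : ∀ n x, x ≠ ξ n → sec (al ξ h n) x ∈ H)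
    (hH : ∀ g ∈ H, ∀ ρ, EP P ρ → RR P H ρ g) (hρ : EP P ρ) : RR P H ρ h := by
  by_cases hr : ρ = ξ
  · rw [hr]
    exact ⟨0, fun m _ => ⟨al_per h1 h2 m, fun x hx => h3 m x hx⟩⟩
  · have hex : ∃ t, ρ t ≠ ξ t := Function.ne_iff.1 hr
    obtain ⟨t, ht, hmin⟩ : ∃ t, ρ t ≠ ξ t ∧ ∀ n, n < t → ρ n = ξ n :=
      ⟨Nat.find hex, Nat.find_spec hex, fun n hn => not_not.1 (Nat.find_min hex hn)⟩
    apply RR_shift (t + 1)
    apply hH _ _ _ (EP_shift hρ (t + 1))
    show sec (al ρ h t) (ρ t) ∈ H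
    rw [al_congr h t hmin]
    exact h3 t _ ht

/-! ## self-similarity -/

theorem selfSim_of_le {H : Subgroup (T X)} (h : H ≤ Lv H 1) : SelfSim H := fun _ hg x => h hg x

theorem le_of_selfSim {H : Subgroup (T X)} (h : SelfSim H) : H ≤ Lv H 1 := fun g hg x => h g hg x

theorem selfSim_Lv {H : Subgroup (T X)} (h : SelfSim H) : SelfSim (Lv H 1) :=
  fun _ hg x y => h _ (hg x) y

theorem Bd_sec {d : X} {H : Subgroup (T X)} {b : T X} (hb : b ∈ Bd d P H) :
    sec b d ∈ Bd d P H := by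
  obtain ⟨h1, h2, h3⟩ := hb
  have e : ∀ n, al (dray d) (sec b d) n = al (dray d) b (n + 1) := fun n => al_sh (dray d) b n
  refine ⟨fun n => ?_, ?_, fun n x hx => ?_⟩
  · rw [e]
    exact h1 (n + 1)
  · rw [e]
    show sec (al (dray d) b P) d = sec b d
    rw [h2]
  · rw [e]
    exact h3 (n + 1) x hx

theorem Bd_al {d : X} {H : Subgroup (T X)} {b : T X} (hb : b ∈ Bd d P H) (n : ℕ) :
    al (dray d) b n ∈ Bd d P H := by
  induction n with
  | zero => exact hb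
  | succ n ih => exact Bd_sec ih

theorem selfSim_sup {d : X} {H : Subgroup (T X)} (h : SelfSim H) : SelfSim (H ⊔ Bd d P H) := by
  apply selfSim_of_le
  apply sup_le
  · intro g hg x
    exact Subgroup.mem_sup_left (h g hg x)
  · intro g hg x
    by_cases hx : x = d
    · rw [hx]
      exact Subgroup.mem_sup_right (Bd_sec hg)
    · exact Subgroup.mem_sup_left (hg.2.2 0 x hx)

/-- the generators of `M0` -/
def G0 (X : Type) (P : ℕ) : Set (T X) :=
  {h | ∃ ξ : ℕ → X, (∀ n, ξ (n + P) = ξ n) ∧ al ξ h P = h ∧ Dir 0 ξ h}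

theorem G0_inv {h : T X} (hh : h ∈ G0 X P) : h⁻¹ ∈ G0 X P := by
  obtain ⟨ξ, h1, h2, h3⟩ := hh
  refine ⟨img ξ h, fun n => ?_, ?_, ?_⟩
  · show root (al ξ h (n + P)) (ξ (n + P)) = root (al ξ h n) (ξ n)
    rw [h1, al_per h1 h2]
  · rw [al_invR, h2]
  · intro n x hx
    rw [al_invR, sec_inv]
    have h4 : sec (al ξ h n) ((root (al ξ h n))⁻¹ x) = 1 := h3 n _ (by
      intro h5
      apply hx
      show x = root (al ξ h n) (ξ n)
      rw [← h5, app_inv])
    rw [h4, inv_one]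
    exact isDep_one 0

theorem G0_sec {h : T X} (hh : h ∈ G0 X P) (x : X) : sec h x ∈ M0 X P := by
  obtain ⟨ξ, h1, h2, h3⟩ := hh
  by_cases hx : x = ξ 0
  · rw [hx]
    apply Subgroup.subset_closure
    refine ⟨sh ξ, fun n => ?_, ?_, ?_⟩
    · show ξ (n + P + 1) = ξ (n + 1)
      have e : n + P + 1 = n + 1 + P := by omega
      rw [e, h1]
    · rw [al_sh]
      show sec (al ξ h P) (ξ P) = sec h (ξ 0)
      have h4 := h1 0
      rw [Nat.zero_add] at h4
      rw [h2, h4]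
    · intro n y hy
      rw [al_sh]
      exact h3 (n + 1) y hy
  · have h4 : sec h x = 1 := h3 0 x hx
    rw [h4]
    exact one_mem _

theorem selfSim_M0 : SelfSim (M0 X P) := by
  apply selfSim_of_le
  unfold M0
  rw [Subgroup.closure_le]
  intro h hh x
  exact G0_sec hh x

theorem selfSim_Mx (d : X) (P : ℕ) (s : ℕ) : SelfSim (Mx d P s) := by
  induction s with
  | zero =>
    intro h hh x
    have h1 : h = 1 := Subgroup.mem_bot.1 hh
    rw [h1, sec_one]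
    exact one_mem _
  | succ s ih =>
    cases s with
    | zero => exact selfSim_M0
    | succ s => exact selfSim_Lv (selfSim_sup ih)

theorem Mx_mono (d : X) (P : ℕ) (s : ℕ) : Mx d P s ≤ Mx d P (s + 1) := by
  cases s with
  | zero => exact bot_le
  | succ s => exact le_sup_left.trans (le_of_selfSim (selfSim_sup (selfSim_Mx d P (s + 1))))

theorem Bd_le_Mx (d : X) (P : ℕ) (s : ℕ) : Bd d P (Mx d P s) ≤ Mx d P (s + 1) := by
  cases s with
  | zero =>
    intro b hb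
    apply Subgroup.subset_closure
    refine ⟨dray d, fun _ => rfl, hb.2.1, fun n x hx => ?_⟩
    exact Subgroup.mem_bot.1 (hb.2.2 n x hx)
  | succ s => exact le_sup_right.trans (le_of_selfSim (selfSim_sup (selfSim_Mx d P (s + 1))))

/-- the main point -/
theorem main (d : X) (P : ℕ) (s : ℕ) : ∀ h ∈ Mx d P (s + 1), ∀ ρ, EP P ρ → RR P (Mx d P s) ρ h := by
  induction s with
  | zero =>
    have h0 : ∀ g ∈ (⊥ : Subgroup (T X)), ∀ ρ, EP P ρ → RR P ⊥ ρ g := by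
      intro g hg ρ _
      rw [Subgroup.mem_bot.1 hg]
      exact RR_one _ _
    have h1 : ∀ g ∈ G0 X P, ∀ ρ, EP P ρ → RR P ⊥ ρ g := by
      rintro g ⟨ξ, a1, a2, a3⟩ ρ hρ
      exact RR_dir a1 a2 (fun n x hx => Subgroup.mem_bot.2 (a3 n x hx)) h0 hρ
    have h2 : M0 X P ≤ QQ P ⊥ := by
      unfold M0
      rw [Subgroup.closure_le]
      intro g hg
      exact ⟨h1 g hg, h1 _ (G0_inv hg)⟩
    intro h hh
    exact (h2 hh).1
  | succ s ih =>
    have h0 : ∀ g ∈ Mx d P (s + 1), ∀ ρ, EP P ρ → RR P (Mx d P (s + 1)) ρ g :=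
      fun g hg ρ hρ => RR_mono (Mx_mono d P s) (ih g hg ρ hρ)
    have h1 : ∀ g ∈ Bd d P (Mx d P (s + 1)), ∀ ρ, EP P ρ → RR P (Mx d P (s + 1)) ρ g := by
      rintro g ⟨_, a2, a3⟩ ρ hρ
      exact RR_dir (ξ := dray d) (fun _ => rfl) a2 a3 h0 hρ
    have h2 : Mx d P (s + 1) ⊔ Bd d P (Mx d P (s + 1)) ≤ QQ P (Mx d P (s + 1)) :=
      sup_le (le_QQ h0) (le_QQ h1)
    intro h hh ρ hρ
    apply RR_shift 1
    exact (h2 (hh (ρ 0))).1 _ (EP_shift hρ 1)

theorem fifth (d : X) (P : ℕ) (s : ℕ) (h : T X) (hh : h ∈ Mx d P (s + 1)) (hF : Fx d h) :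
    ∃ m, al (dray d) h m ∈ Bd d P (Mx d P s) := by
  obtain ⟨N, hN⟩ := main d P s h hh (dray d) ⟨0, fun _ _ => rfl⟩
  have e : ∀ n, al (dray d) (al (dray d) h N) n = al (dray d) h (n + N) := fun n =>
    (al_add (dray d) h N n).symm
  refine ⟨N, fun n => ?_, ?_, fun n x hx => ?_⟩
  · rw [e]
    exact hF _
  · rw [e, Nat.add_comm]
    exact (hN N le_rfl).1
  · rw [e]
    exact (hN (n + N) (by omega)).2 x hx

theorem sixth (d : X) (P : ℕ) (hP : 0 < P) (s : ℕ) (h : T X) (hh : h ∈ Mx d P (s + 1))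
    (hB : h ∈ Bd d P ⊤) : h ∈ Bd d P (Mx d P s) := by
  obtain ⟨m, hm⟩ := fifth d P s h hh hB.1
  have h1 : ∀ j, al (dray d) h (j * P) = h := by
    intro j
    induction j with
    | zero => rw [Nat.zero_mul]; rfl
    | succ j ih =>
      rw [Nat.succ_mul, al_per (ξ := dray d) (fun _ => rfl) hB.2.1, ih]
  have h2 : m ≤ m * P := Nat.le_mul_of_pos_right m hP
  have h3 := Bd_al hm (m * P - m)
  have h4 : al (dray d) (al (dray d) h m) (m * P - m) = h := by
    have h5 := al_add (dray d) h m (m * P - m)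
    have h6 : m * P - m + m = m * P := by omega
    rw [h6, h1] at h5
    exact h5.symm
  rwa [h4] at h3

/-- properties of the chain of groups -/
theorem t_mx : S_MX := fun _ d P hP s => ⟨selfSim_Mx d P s, selfSim_sup (selfSim_Mx d P s),
  Mx_mono d P s, Bd_le_Mx d P s, fifth d P s, sixth d P hP s⟩

end Pool.Agent.Y681.PA
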